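import Mathlib
import Pool.Agent.HP27.QF.Pat

set_option autoImplicit false

/-!
# Dilated prime quadruplets `p, p + 2 D, p + 6 D, p + 8 D` between ALL consecutive fifth powers, `D ≤ (log n) ^ B`

Golubew's conjecture asks for a prime quadruplet `(p, p + 2, p + 6, p + 8)` between `n ^ 5` and `(n + 1) ^ 5`, for every `n`.
Here it is shown that for EVERY large `n` there is a `D ≤ (log n) ^ B` (where `B` is absolute) and there are at least
`n ^ 4 / (log n) ^ B` primes `p` such that `p, p + 2 D, p + 6 D, p + 8 D` are primes between `n ^ 5` and `(n + 1) ^ 5`. In fact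
almost all primes `p` between `n ^ 5` and `(n + 1) ^ 5` start such a quadruplet: for every `ε > 0` there is a `B` such that this
fails for a proportion of at most `ε` of these primes, for every large `n`. The same holds for every pattern in place of
`(0, 2, 6, 8)` and for all intervals `(x, x + H]`, `x ^ 0.615 ≤ H ≤ x`.

Proof. (1) Every interval `(x, x + H]`, `H ≥ x ^ 0.615`, has at least `c H / log x` primes: otherwise it would have too many
subintervals of length `x ^ 0.57` with too few primes (project KS and KT of the starting files: Heath-Brown's identity, large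
values of Dirichlet polynomials, mean value theorems). (2) A set of primes of an interval with positive relative density contains
progressions of any length with a difference which is at most a power of the logarithm (`Pool.Agent.X58.IV`: Szemerédi's
theorem relative to sifted sets, in short intervals). Apply this to the set of the primes which do NOT start a narrow copy of
the pattern.
-/

namespace Pool.Agent.Results.MP_c03ca8_nt.DilatedQuadruplets

open Finset Filter Topology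

/-- The number of the primes `p` with `u < p < v`. -/
noncomputable def primesBetween (u v : ℕ) : ℕ := {p : ℕ | p.Prime ∧ u < p ∧ p < v}.ncard

/-- The number of the primes `p`, `u < p < v`, such that for some natural number `D` with `1 ≤ D ≤ M` all the numbers
`p + h i * D` are primes between `u` and `v`. -/
noncomputable def starts {k : ℕ} (h : Fin k → ℤ) (M : ℝ) (u v : ℕ) : ℕ :=
  {p : ℕ | (p.Prime ∧ u < p ∧ p < v) ∧ ∃ D : ℕ, 1 ≤ D ∧ (D : ℝ) ≤ M ∧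
    ∀ i, ∃ q : ℕ, (q : ℤ) = p + h i * D ∧ q.Prime ∧ u < q ∧ q < v}.ncard

/-- The number of the `p` such that `p, p + 2 D, p + 6 D, p + 8 D` are primes between `n ^ 5` and `(n + 1) ^ 5`. -/
noncomputable def quadruplets (D n : ℕ) : ℕ :=
  {p : ℕ | p.Prime ∧ (p + 2 * D).Prime ∧ (p + 6 * D).Prime ∧ (p + 8 * D).Prime ∧
    n ^ 5 < p ∧ p + 8 * D < (n + 1) ^ 5}.ncard

/-- the relation with the library -/
lemma main {k : ℕ} (h : Fin k → ℤ) (ε : ℝ) (hε : 0 < ε) : ∃ B x₀ : ℕ, ∀ x H : ℕ, x₀ ≤ x →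
    (x : ℝ) ^ (0.615 : ℝ) ≤ H → H ≤ x →
    (1 - ε) * primesBetween x (x + H + 1) ≤ starts h (Real.log x ^ B) x (x + H + 1) := by
  classical
  obtain ⟨B, x₀, hB⟩ := Pool.Agent.HP27.QF.narrow k h ε hε
  refine ⟨B, x₀, fun x H hx h1 h2 => ?_⟩
  have h3 := hB x H hx h1 h2
  obtain ⟨F, hF⟩ : ∃ F : Finset ℕ, F = (Ioc x (x + H)).filter Nat.Prime := ⟨_, rfl⟩
  obtain ⟨G, hG⟩ : ∃ G : Finset ℕ, G = (Ioc x (x + H)).filter (fun p : ℕ => p.Prime ∧ ¬ ∃ D : ℕ, 1 ≤ D ∧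
      (D : ℝ) ≤ Real.log x ^ B ∧ ∀ i, ∃ q : ℕ, q.Prime ∧ x < q ∧ q ≤ x + H ∧ (q : ℤ) = p + h i * D) := ⟨_, rfl⟩
  rw [← hF, ← hG] at h3
  have e1 : primesBetween x (x + H + 1) = F.card := by
    unfold primesBetween
    rw [← Set.ncard_coe_finset, hF]
    congr 1
    ext p
    simp only [coe_filter, mem_Ioc, Set.mem_ofPred_eq]
    constructor
    · rintro ⟨a1, a2, a3⟩
      exact ⟨⟨a2, by omega⟩, a1⟩
    · rintro ⟨⟨a1, a2⟩, a3⟩
      exact ⟨a3, a1, by omega⟩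
  have hsub : F \ G ⊆ F := sdiff_subset
  have hGF : G ⊆ F := by
    intro p hp
    rw [hG, mem_filter] at hp
    rw [hF, mem_filter]
    exact ⟨hp.1, hp.2.1⟩
  have e2 : (F \ G).card ≤ starts h (Real.log x ^ B) x (x + H + 1) := by
    unfold starts
    rw [← Set.ncard_coe_finset]
    apply Set.ncard_le_ncard
    · intro p hp
      rw [Finset.mem_coe, Finset.mem_sdiff] at hp
      obtain ⟨hp1, hp2⟩ := hp
      rw [hF, mem_filter, mem_Ioc] at hp1
      refine ⟨⟨hp1.2, hp1.1.1, by omega⟩, ?_⟩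
      by_contra hcon
      apply hp2
      rw [hG, mem_filter, mem_Ioc]
      refine ⟨hp1.1, hp1.2, ?_⟩
      rintro ⟨D, hD1, hD2, hD3⟩
      apply hcon
      refine ⟨D, hD1, hD2, fun i => ?_⟩
      obtain ⟨q, q1, q2, q3, q4⟩ := hD3 i
      exact ⟨q, q4, q1, q2, by omega⟩
    · exact (Set.finite_Iio (x + H + 1)).subset fun p hp => hp.1.2.2
  have e3 : (F \ G).card + G.card = F.card := card_sdiff_add_card_eq_card hGF
  have e4 : ((F \ G).card : ℝ) + G.card = F.card := by exact_mod_cast e3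
  have e5 : ((F \ G).card : ℝ) ≤ starts h (Real.log x ^ B) x (x + H + 1) := by exact_mod_cast e2
  rw [e1]
  linarith

/-- the number of primes -/
lemma low : ∃ c : ℝ, 0 < c ∧ ∃ x₀ : ℕ, ∀ x H : ℕ, x₀ ≤ x → (x : ℝ) ^ (0.615 : ℝ) ≤ H → H ≤ x →
    c * H / Real.log x ≤ primesBetween x (x + H + 1) := by
  classical
  obtain ⟨c, hc, x₀, h⟩ := Pool.Agent.HP27.QF.low
  refine ⟨c, hc, x₀, fun x H hx h1 h2 => (h x H hx h1 h2).trans ?_⟩
  rw [Nat.cast_le]
  unfold primesBetween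
  rw [← Set.ncard_coe_finset]
  apply Set.ncard_le_ncard
  · intro p hp
    rw [coe_filter, Set.mem_ofPred_eq, mem_Ioc] at hp
    exact ⟨hp.2, hp.1.1, by omega⟩
  · exact (Set.finite_Iio (x + H + 1)).subset fun p hp => hp.2.2

/-- fifth powers -/
lemma fifth (n : ℕ) (hn : 100 ≤ n) : ∃ H : ℕ, n ^ 5 + H + 1 = (n + 1) ^ 5 ∧ ((n ^ 5 : ℕ) : ℝ) ^ (0.615 : ℝ) ≤ H ∧ H ≤ n ^ 5 ∧
    n ^ 4 ≤ H := by
  have e : (n + 1) ^ 5 = n ^ 5 + (5 * n ^ 4 + 10 * n ^ 3 + 10 * n ^ 2 + 5 * n) + 1 := by ring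
  refine ⟨5 * n ^ 4 + 10 * n ^ 3 + 10 * n ^ 2 + 5 * n, by rw [e], ?_, ?_, ?_⟩
  · have hnr : (100 : ℝ) ≤ n := by exact_mod_cast hn
    have hn0 : (0 : ℝ) ≤ n := by linarith
    have h1 : ((n ^ 5 : ℕ) : ℝ) ^ (0.615 : ℝ) ≤ (n : ℝ) ^ (4 : ℝ) := by
      push_cast
      rw [← Real.rpow_natCast, ← Real.rpow_mul hn0]
      apply Real.rpow_le_rpow_of_exponent_le (by linarith)
      norm_num
    refine h1.trans ?_
    rw [show (4 : ℝ) = ((4 : ℕ) : ℝ) by norm_num, Real.rpow_natCast]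
    push_cast
    nlinarith [pow_pos (by linarith : (0 : ℝ) < n) 4, pow_pos (by linarith : (0 : ℝ) < n) 3,
      pow_pos (by linarith : (0 : ℝ) < n) 2]
  · have h2 : n ^ 5 = n * n ^ 4 := by ring
    have h3 : n ^ 4 = n * n ^ 3 := by ring
    have h4 : n ^ 3 = n * n ^ 2 := by ring
    have h5 : n ^ 2 = n * n := by ring
    have h6 : 100 * n ^ 4 ≤ n * n ^ 4 := Nat.mul_le_mul_right _ hn
    have h7 : 100 * n ^ 3 ≤ n * n ^ 3 := Nat.mul_le_mul_right _ hn
    have h8 : 100 * n ^ 2 ≤ n * n ^ 2 := Nat.mul_le_mul_right _ hn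
    have h9 : 100 * n ≤ n * n := Nat.mul_le_mul_right _ hn
    omega
  · have : 0 ≤ 10 * n ^ 3 + 10 * n ^ 2 + 5 * n := Nat.zero_le _
    omega

/-- (1) There is `B` such that for EVERY large `n` there is `D` with `1 ≤ D ≤ (log n) ^ B` such that there are at least
`n ^ 4 / (log n) ^ B` prime quadruplets `(p, p + 2 D, p + 6 D, p + 8 D)` between `n ^ 5` and `(n + 1) ^ 5`.
(2) For every `ε > 0` there is `B` such that for every large `n` at least `(1 - ε)` times the number of the primes between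
`n ^ 5` and `(n + 1) ^ 5` start such a quadruplet with some `D`, `1 ≤ D ≤ (log n) ^ B`.
(3) The same as (2) for every pattern `h` and in all intervals `x < p < x + H`, `x ^ 0.615 ≤ H ≤ x`, which
contain at least `c H / log x` primes. -/
theorem result :
    (∃ B n₀ : ℕ, ∀ n : ℕ, n₀ ≤ n → ∃ D : ℕ, 1 ≤ D ∧ (D : ℝ) ≤ Real.log n ^ B ∧
      (n : ℝ) ^ 4 / Real.log n ^ B ≤ quadruplets D n) ∧
    (∀ ε : ℝ, 0 < ε → ∃ B n₀ : ℕ, ∀ n : ℕ, n₀ ≤ n →
      (1 - ε) * primesBetween (n ^ 5) ((n + 1) ^ 5) ≤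
        starts ![2, 6, 8] (Real.log n ^ B) (n ^ 5) ((n + 1) ^ 5)) ∧
    (∀ (k : ℕ) (h : Fin k → ℤ) (ε : ℝ), 0 < ε → ∃ B x₀ : ℕ, ∀ x H : ℕ, x₀ ≤ x → (x : ℝ) ^ (0.615 : ℝ) ≤ H → H ≤ x →
      (1 - ε) * primesBetween x (x + H + 1) ≤ starts h (Real.log x ^ B) x (x + H + 1)) ∧
    (∃ c : ℝ, 0 < c ∧ ∃ x₀ : ℕ, ∀ x H : ℕ, x₀ ≤ x → (x : ℝ) ^ (0.615 : ℝ) ≤ H → H ≤ x →
      c * H / Real.log x ≤ primesBetween x (x + H + 1)) := by
  classical
  have hlogn : Tendsto (fun n : ℕ => Real.log (n : ℝ)) atTop atTop :=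
    Real.tendsto_log_atTop.comp tendsto_natCast_atTop_atTop
  -- part (2)
  have h2 : ∀ ε : ℝ, 0 < ε → ∃ B n₀ : ℕ, ∀ n : ℕ, n₀ ≤ n →
      (1 - ε) * primesBetween (n ^ 5) ((n + 1) ^ 5) ≤
        starts ![2, 6, 8] (Real.log n ^ B) (n ^ 5) ((n + 1) ^ 5) := by
    intro ε hε
    obtain ⟨B, x₀, hB⟩ := main ![2, 6, 8] ε hε
    obtain ⟨n₀, hn₀⟩ := eventually_atTop.1 ((hlogn.eventually_ge_atTop ((5 : ℝ) ^ B)).and
      (eventually_ge_atTop (x₀ + 100)))
    refine ⟨B + 1, n₀, fun n hn => ?_⟩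
    obtain ⟨e1, e2⟩ := hn₀ n hn
    obtain ⟨H, hH1, hH2, hH3, -⟩ := fifth n (by omega)
    have h3 := hB (n ^ 5) H (by
      have : n ≤ n ^ 5 := Nat.le_self_pow (by norm_num) n
      omega) hH2 hH3
    rw [hH1] at h3
    refine h3.trans ?_
    rw [Nat.cast_le]
    unfold starts
    apply Set.ncard_le_ncard
    · rintro p ⟨hp1, D, hD1, hD2, hD3⟩
      refine ⟨hp1, D, hD1, hD2.trans ?_, hD3⟩
      push_cast
      rw [Real.log_pow, mul_pow, pow_succ]
      push_cast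
      have h4 : 0 ≤ Real.log (n : ℝ) := by
        have : (0 : ℝ) ≤ 5 ^ B := by positivity
        linarith
      rw [mul_comm]
      exact mul_le_mul_of_nonneg_left e1 (pow_nonneg h4 B)
    · exact (Set.finite_Iio ((n + 1) ^ 5)).subset fun p hp => hp.1.2.2
  refine ⟨?_, h2, fun k h ε hε => main h ε hε, low⟩
  -- part (1)
  obtain ⟨B, n₀, hB⟩ := h2 (1 / 2) (by norm_num)
  obtain ⟨c, hc, x₀, hlow⟩ := low
  obtain ⟨n₁, hn₁⟩ := eventually_atTop.1 ((hlogn.eventually_ge_atTop (max 1 (20 / c))).and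
      (eventually_ge_atTop (x₀ + n₀ + 100)))
  refine ⟨B + 2, n₁, fun n hn => ?_⟩
  obtain ⟨e1, e2⟩ := hn₁ n hn
  have hL1 : 1 ≤ Real.log (n : ℝ) := (le_max_left _ _).trans e1
  have hLc : 20 / c ≤ Real.log (n : ℝ) := (le_max_right _ _).trans e1
  obtain ⟨L, hLdef⟩ : ∃ L : ℝ, L = Real.log n := ⟨_, rfl⟩
  rw [← hLdef] at hL1 hLc ⊢
  have hL0 : 0 < L := by linarith
  obtain ⟨H, hH1, hH2, hH3, hH4⟩ := fifth n (by omega)
  have h3 := hB n (by omega)
  rw [← hLdef] at h3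
  have h4 := hlow (n ^ 5) H (by
      have : n ≤ n ^ 5 := Nat.le_self_pow (by norm_num) n
      omega) hH2 hH3
  rw [hH1] at h4
  have h5 : Real.log ((n ^ 5 : ℕ) : ℝ) = 5 * L := by
    push_cast
    rw [Real.log_pow, hLdef]
    norm_num
  rw [h5] at h4
  have hH4' : (n : ℝ) ^ 4 ≤ H := by exact_mod_cast hH4
  have h6 : c * (n : ℝ) ^ 4 / (10 * L) ≤ starts ![2, 6, 8] (L ^ B) (n ^ 5) ((n + 1) ^ 5) := by
    have h7 : c * (n : ℝ) ^ 4 / (5 * L) ≤ c * H / (5 * L) :=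
      div_le_div_of_nonneg_right (mul_le_mul_of_nonneg_left hH4' hc.le) (by positivity)
    have h8 : c * (n : ℝ) ^ 4 / (10 * L) = c * (n : ℝ) ^ 4 / (5 * L) / 2 := by
      field_simp
      ring
    rw [h8]
    linarith
  -- pigeonhole
  obtain ⟨M, hM⟩ : ∃ M : ℕ, M = ⌊L ^ B⌋₊ := ⟨_, rfl⟩
  have hMle : (M : ℝ) ≤ L ^ B := by rw [hM]; exact Nat.floor_le (by positivity)
  by_contra hcon
  push Not at hcon
  have hcov : {p : ℕ | (p.Prime ∧ n ^ 5 < p ∧ p < (n + 1) ^ 5) ∧ ∃ D : ℕ, 1 ≤ D ∧ (D : ℝ) ≤ L ^ B ∧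
      ∀ i, ∃ q : ℕ, (q : ℤ) = p + (![2, 6, 8] : Fin 3 → ℤ) i * D ∧ q.Prime ∧ n ^ 5 < q ∧ q < (n + 1) ^ 5} ⊆
      ⋃ D ∈ (Icc 1 M : Finset ℕ), {p : ℕ | p.Prime ∧ (p + 2 * D).Prime ∧ (p + 6 * D).Prime ∧ (p + 8 * D).Prime ∧
    n ^ 5 < p ∧ p + 8 * D < (n + 1) ^ 5} := by
    rintro p ⟨⟨hp1, hp2, hp3⟩, D, hD1, hD2, hD3⟩
    rw [Set.mem_iUnion₂]
    refine ⟨D, ?_, ?_⟩
    · rw [mem_Icc]
      refine ⟨hD1, ?_⟩
      rw [hM]
      exact Nat.le_floor hD2
    · obtain ⟨q₁, a1, a2, a3, a4⟩ := hD3 0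
      obtain ⟨q₂, b1, b2, b3, b4⟩ := hD3 1
      obtain ⟨q₃, c1, c2, c3, c4⟩ := hD3 2
      have f1 : q₁ = p + 2 * D := by
        have : (q₁ : ℤ) = p + 2 * D := a1
        exact_mod_cast this
      have f2 : q₂ = p + 6 * D := by
        have : (q₂ : ℤ) = p + 6 * D := b1
        exact_mod_cast this
      have f3 : q₃ = p + 8 * D := by
        have : (q₃ : ℤ) = p + 8 * D := c1
        exact_mod_cast this
      rw [f1] at a2
      rw [f2] at b2
      rw [f3] at c2 c4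
      exact ⟨hp1, a2, b2, c2, hp2, c4⟩
  have hfin : ∀ D : ℕ, {p : ℕ | p.Prime ∧ (p + 2 * D).Prime ∧ (p + 6 * D).Prime ∧ (p + 8 * D).Prime ∧
    n ^ 5 < p ∧ p + 8 * D < (n + 1) ^ 5}.Finite := fun D =>
    (Set.finite_Iio ((n + 1) ^ 5)).subset fun p hp => by
      have h7 := hp.2.2.2.2.2
      show p < (n + 1) ^ 5
      omega
  have h7 : starts ![2, 6, 8] (L ^ B) (n ^ 5) ((n + 1) ^ 5) ≤ ∑ D ∈ Icc 1 M, quadruplets D n := by
    unfold starts
    refine (Set.ncard_le_ncard hcov ?_).trans ?_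
    · exact Set.Finite.biUnion (Finset.finite_toSet _) fun D _ => hfin D
    · exact Finset.set_ncard_biUnion_le _ _
  have h8 : ((∑ D ∈ Icc 1 M, quadruplets D n : ℕ) : ℝ) ≤ M * ((n : ℝ) ^ 4 / L ^ (B + 2)) := by
    push_cast
    calc ∑ D ∈ Icc 1 M, (quadruplets D n : ℝ) ≤ ∑ D ∈ Icc 1 M, (n : ℝ) ^ 4 / L ^ (B + 2) := by
          apply sum_le_sum
          intro D hD
          rw [mem_Icc] at hD
          apply (hcon D hD.1 ?_).le
          have h9 : (D : ℝ) ≤ M := by exact_mod_cast hD.2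
          refine h9.trans (hMle.trans ?_)
          exact pow_le_pow_right₀ hL1 (by omega)
      _ = M * ((n : ℝ) ^ 4 / L ^ (B + 2)) := by
          rw [sum_const, Nat.card_Icc, nsmul_eq_mul]
          simp
  have h9 : (starts ![2, 6, 8] (L ^ B) (n ^ 5) ((n + 1) ^ 5) : ℝ) ≤
      ((∑ D ∈ Icc 1 M, quadruplets D n : ℕ) : ℝ) := by exact_mod_cast h7
  have hn4 : (0 : ℝ) < (n : ℝ) ^ 4 := by
    have : (0 : ℝ) < n := by exact_mod_cast (by omega : 0 < n)
    positivity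
  have h10 : c * (n : ℝ) ^ 4 / (10 * L) ≤ L ^ B * ((n : ℝ) ^ 4 / L ^ (B + 2)) :=
    h6.trans (h9.trans (h8.trans (mul_le_mul_of_nonneg_right hMle (by positivity))))
  have h11 : L ^ B * ((n : ℝ) ^ 4 / L ^ (B + 2)) = (n : ℝ) ^ 4 / L ^ 2 := by
    rw [pow_add]
    field_simp
  rw [h11] at h10
  rw [div_le_div_iff₀ (by positivity) (by positivity)] at h10
  have h12 : c * L ≤ 10 := by
    have h13 : c * (n : ℝ) ^ 4 * L ^ 2 = (c * L) * ((n : ℝ) ^ 4 * L) := by ring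
    have h14 : (n : ℝ) ^ 4 * (10 * L) = 10 * ((n : ℝ) ^ 4 * L) := by ring
    rw [h13, h14] at h10
    exact le_of_mul_le_mul_right h10 (by positivity)
  have h15 : 20 ≤ c * L := by
    rw [div_le_iff₀ hc] at hLc
    linarith
  linarith

end Pool.Agent.Results.MP_c03ca8_nt.DilatedQuadruplets
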