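import Mathlib
import Pool.Agent.HP27.QF.Shape

set_option autoImplicit false

/-!
# Bounded prime quadruplets with nearly the shape of `(0, 2, 6, 8)` between a positive proportion of the fifth powers

Golubew's conjecture asks for prime quadruplets `(p, p + 2, p + 6, p + 8)` between `n ^ 5` and `(n + 1) ^ 5`. Here the pattern
`(0, 2, 6, 8)` is replaced by a pattern `(0, a, b, c)` of BOUNDED size which is a dilate of `(0, 2, 6, 8)` up to a
bounded error: there are `E`, `J` and `B` such that for every `M > E` and every large `N` there are `D` between `M` and `J M`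
and `a, b, c` with `|a - 2 D| ≤ E`, `|b - 6 D| ≤ E`, `|c - 8 D| ≤ E` such that for a positive proportion of the `n ≤ N` there are
at least `N ^ 4 / (log N) ^ B` primes `p` such that `p, p + a, p + b, p + c` are primes between `n ^ 5` and `(n + 1) ^ 5`. The
error `E` does not depend on `M`, so the shape of the quadruplets tends to the shape of `(0, 2, 6, 8)`, and their size is
at most `8 J M + E`. The same for every finite set of integers in place of `(0, 2, 6, 8)`, and between consecutive `r`-th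
powers for every `r ≥ 2`.

Proof. By the coloured Maynard-Tao theorem with spread sets (starting files, `Pool.Agent.N694.SP`; here
`Pool.Agent.HP27.S3.hitU`) for any `T` classes of `K` integers each there are at least `5 T / 18` classes such that one number
of each of these classes gives a prime, for all elements of a set `R` of the right order of magnitude, which has at
most the expected number of elements in the intervals of length `x ^ (1/2)`. Let the `g`-th class lie in an interval of length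
`O(1)` to the right of `g M'`, and apply Szemerédi's theorem to the set of the classes: it contains a dilate of the pattern.
-/

namespace Pool.Agent.Results.MP_c03ca8_nt.QuadrupletShapes

open Filter

/-- The number of the `p` such that `p, p + a, p + b, p + c` are primes between `n ^ 5` and `(n + 1) ^ 5`. -/
noncomputable def quadruplets (a b c n : ℕ) : ℕ :=
  {p : ℕ | p.Prime ∧ (p + a).Prime ∧ (p + b).Prime ∧ (p + c).Prime ∧ n ^ 5 < p ∧ p + c < (n + 1) ^ 5}.ncard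

/-- The number of the integers `p` such that all the numbers `p + b i` are primes between `n ^ r` and `(n + 1) ^ r`. -/
noncomputable def tuples {k : ℕ} (r : ℕ) (b : Fin (k + 1) → ℤ) (n : ℕ) : ℕ :=
  {p : ℤ | ∀ i, ∃ q : ℕ, q.Prime ∧ (q : ℤ) = p + b i ∧ n ^ r < q ∧ q < (n + 1) ^ r}.ncard

/-- (1) There are `E, J, B` such that for every `M > E` there is `κ > 0` such that for every large `N` there are `D` with
`M ≤ D ≤ J M` and `0 < a < b < c` with `|a - 2 D|, |b - 6 D|, |c - 8 D| ≤ E` such that at least `κ N` of the `n ≤ N` satisfy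
`quadruplets a b c n ≥ N ^ 4 / (log N) ^ B`.
(2) The same for every pattern of integers `h` and between consecutive `r`-th powers, for every `r ≥ 2`. -/
theorem result :
    (∃ E J B : ℕ, ∀ M : ℕ, E < M → ∃ κ : ℝ, 0 < κ ∧ ∀ᶠ N : ℕ in atTop, ∃ D a b c : ℕ, M ≤ D ∧ D ≤ J * M ∧
      0 < a ∧ a < b ∧ b < c ∧ |(a : ℤ) - 2 * D| ≤ E ∧ |(b : ℤ) - 6 * D| ≤ E ∧ |(c : ℤ) - 8 * D| ≤ E ∧
      κ * N ≤ ({n : ℕ | n ≤ N ∧ (N : ℝ) ^ 4 / Real.log N ^ B ≤ (quadruplets a b c n : ℝ)}.ncard : ℝ)) ∧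
    (∀ (k : ℕ) (h : Fin (k + 1) → ℤ) (r : ℕ), 2 ≤ r → ∃ E J B : ℕ, ∀ M : ℕ, 1 ≤ M → ∃ κ : ℝ, 0 < κ ∧
      ∀ᶠ N : ℕ in atTop, ∃ D : ℕ, M ≤ D ∧ D ≤ J * M ∧ ∃ b : Fin (k + 1) → ℤ, (∀ i, |b i - D * h i| ≤ E) ∧
      κ * N ≤ ({n : ℕ | n ≤ N ∧ (N : ℝ) ^ (r - 1) / Real.log N ^ B ≤ (tuples r b n : ℝ)}.ncard : ℝ)) := by
  classical
  have h2 : ∀ (k : ℕ) (h : Fin (k + 1) → ℤ) (r : ℕ), 2 ≤ r → ∃ E J B : ℕ, ∀ M : ℕ, 1 ≤ M → ∃ κ : ℝ, 0 < κ ∧
      ∀ᶠ N : ℕ in atTop, ∃ D : ℕ, M ≤ D ∧ D ≤ J * M ∧ ∃ b : Fin (k + 1) → ℤ, (∀ i, |b i - D * h i| ≤ E) ∧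
      κ * N ≤ ({n : ℕ | n ≤ N ∧ (N : ℝ) ^ (r - 1) / Real.log N ^ B ≤ (tuples r b n : ℝ)}.ncard : ℝ) :=
    fun k h r hr => Pool.Agent.HP27.QF.shape k h r hr
  refine ⟨?_, h2⟩
  obtain ⟨E, J, B, hE⟩ := h2 3 ![0, 2, 6, 8] 5 (by norm_num)
  refine ⟨2 * E, J, B, fun M hM => ?_⟩
  obtain ⟨κ, hκ, hev⟩ := hE M (by omega)
  refine ⟨κ, hκ, ?_⟩
  filter_upwards [hev] with N hN
  obtain ⟨D, hD1, hD2, b, hb, hcount⟩ := hN
  have b0 : |b 0 - D * 0| ≤ E := hb 0
  have b1 : |b 1 - D * 2| ≤ E := hb 1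
  have b2 : |b 2 - D * 6| ≤ E := hb 2
  have b3 : |b 3 - D * 8| ≤ E := hb 3
  rw [abs_le] at b0 b1 b2 b3
  obtain ⟨a₁, ha₁⟩ : ∃ a₁ : ℕ, (a₁ : ℤ) = b 1 - b 0 := ⟨(b 1 - b 0).toNat, Int.toNat_of_nonneg (by omega)⟩
  obtain ⟨a₂, ha₂⟩ : ∃ a₂ : ℕ, (a₂ : ℤ) = b 2 - b 0 := ⟨(b 2 - b 0).toNat, Int.toNat_of_nonneg (by omega)⟩
  obtain ⟨a₃, ha₃⟩ : ∃ a₃ : ℕ, (a₃ : ℤ) = b 3 - b 0 := ⟨(b 3 - b 0).toNat, Int.toNat_of_nonneg (by omega)⟩
  refine ⟨D, a₁, a₂, a₃, hD1, hD2, by omega, by omega, by omega, ?_, ?_, ?_, hcount.trans ?_⟩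
  · rw [abs_le]
    push_cast
    omega
  · rw [abs_le]
    push_cast
    omega
  · rw [abs_le]
    push_cast
    omega
  rw [Nat.cast_le]
  apply Set.ncard_le_ncard
  · rintro n ⟨hn1, hn2⟩
    refine ⟨hn1, hn2.trans ?_⟩
    rw [Nat.cast_le]
    unfold tuples quadruplets
    have hfin : ({p : ℕ | p.Prime ∧ (p + a₁).Prime ∧ (p + a₂).Prime ∧ (p + a₃).Prime ∧
        n ^ 5 < p ∧ p + a₃ < (n + 1) ^ 5}).Finite :=
      (Set.finite_Iio ((n + 1) ^ 5)).subset fun p hp => by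
        have h7 := hp.2.2.2.2.2
        rw [Set.mem_Iio]
        omega
    refine Set.ncard_le_ncard_of_injOn (fun p : ℤ => (p + b 0).toNat) ?_ ?_ hfin
    · intro p hp
      obtain ⟨q₀, p0, e0, l0, -⟩ := hp 0
      obtain ⟨q₁, p1, e1, -, -⟩ := hp 1
      obtain ⟨q₂, p2, e2, -, -⟩ := hp 2
      obtain ⟨q₃, p3, e3, -, u3⟩ := hp 3
      have f0 : (p + b 0).toNat = q₀ := by rw [← e0, Int.toNat_natCast]
      have f1 : q₁ = q₀ + a₁ := by omega
      have f2 : q₂ = q₀ + a₂ := by omega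
      have f3 : q₃ = q₀ + a₃ := by omega
      rw [f1] at p1
      rw [f2] at p2
      rw [f3] at p3 u3
      show (p + b 0).toNat ∈ {p : ℕ | p.Prime ∧ (p + a₁).Prime ∧ (p + a₂).Prime ∧ (p + a₃).Prime ∧
        n ^ 5 < p ∧ p + a₃ < (n + 1) ^ 5}
      rw [f0]
      exact ⟨p0, p1, p2, p3, l0, u3⟩
    · intro p hp p' hp' he
      obtain ⟨q₀, -, e0, -, -⟩ := hp 0
      obtain ⟨q₀', -, e0', -, -⟩ := hp' 0
      have h1 : (p + b 0).toNat = (p' + b 0).toNat := he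
      omega
  · exact (Set.finite_Iic N).subset fun n hn => hn.1

end Pool.Agent.Results.MP_c03ca8_nt.QuadrupletShapes
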